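import Pool.Agent.NTW.StmtsA

/-!
# NTW squad (MP_e54c4c_gt), row EIW: extreme elements of the box
-/

set_option autoImplicit false

open Matrix Filter Topology

namespace Pool.Agent.NTW.H19

open Pool.Agent.PFS Pool.Agent.PFJ Pool.Agent.NTS Pool.Agent.NTW

theorem eiw (hexv : ExvStmt) (hexr : ExrStmt) (htbx : TbxStmt) (hdcp : DcpStmt) : EiwStmt := by
  classical
  intro n C Γ K c τ hD w hw
  have hP : PCone C := hD.toCC.toPCone
  have hK2 : 2 ≤ K := le_trans (by norm_num) hD.three
  have hpes : PES C w := hw.pes.1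
  have hli : LinearIndependent ℝ w := Pool.Agent.PFS.H60.lin n C hP (Fin K) w hpes
  obtain ⟨hmem, htau, -, hbox, hzero, hws, -⟩ := hdcp n C Γ K c τ hD w hw
  refine ⟨?_, ?_, ?_, ?_⟩
  · intro e he hec hne hext
    obtain ⟨x, hx, hsum⟩ := (hws e).1 he
    have hy : ∀ i, x i + x (τ i) ∈ closure C := hbox x hx (by rw [hsum]; exact hec)
    have hinv : ∑ i, x (τ i) = ∑ i, x i :=
      (Equiv.ofBijective τ (Function.Involutive.bijective hD.toTau.inv)).sum_comp x
    have hs2 : ∑ i, (x i + x (τ i)) = (2 : ℝ) • e := by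
      rw [Finset.sum_add_distrib, hinv, hsum, two_smul]
    have hcomp : ∀ i, ∃ a : ℝ, x i + x (τ i) = a • e := by
      intro i
      refine hext _ (hy i) 2 ?_
      have h1 : (2 : ℝ) • e - (x i + x (τ i)) =
          ∑ l ∈ Finset.univ.erase i, (x l + x (τ l)) := by
        rw [← hs2, ← Finset.add_sum_erase _ _ (Finset.mem_univ i), add_sub_cancel_left]
      rw [h1]
      exact hP.cl_sum fun l _ => hy l
    have hex : ∃ i, x i + x (τ i) ≠ 0 := by
      by_contra hcon
      push Not at hcon
      have h2 : (2 : ℝ) • e = 0 := by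
        rw [← hs2]
        exact Finset.sum_eq_zero fun i _ => hcon i
      rcases smul_eq_zero.mp h2 with h3 | h3
      · norm_num at h3
      · exact hne h3
    obtain ⟨i, hi⟩ := hex
    obtain ⟨a, ha⟩ := hcomp i
    have ha0 : a ≠ 0 := by
      rintro rfl
      exact hi (by rw [ha, zero_smul])
    refine ⟨i, ?_⟩
    have h4 : e = a⁻¹ • (x i + x (τ i)) := by
      rw [ha, smul_smul, inv_mul_cancel₀ ha0, one_smul]
    rw [h4]
    refine Submodule.smul_mem _ _ (Submodule.add_mem _ (hx i) ?_)
    rw [← htau i]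
    exact hx (τ i)
  · intro i j e hei hej hne
    by_contra hcon
    push Not at hcon
    obtain ⟨hji, hjt⟩ := hcon
    have hfam : ∀ l, (if l = i then e else 0) - (if l = j then e else 0) ∈ Lf C τ w l := by
      intro l
      refine Submodule.sub_mem _ ?_ ?_
      · split_ifs with h1
        · rw [h1]; exact hei
        · exact Submodule.zero_mem _
      · split_ifs with h1
        · rw [h1]; exact hej
        · exact Submodule.zero_mem _
    have hsum : ∑ l, ((if l = i then e else 0) - (if l = j then e else 0)) = 0 := by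
      rw [Finset.sum_sub_distrib, Finset.sum_ite_eq', Finset.sum_ite_eq']
      simp
    have h0 := hzero _ hfam hsum i
    have hij : i ≠ j := fun h => hji h.symm
    have htj : τ i ≠ j := fun h => hjt h.symm
    simp only [if_true, if_neg hij, if_neg htj, sub_zero] at h0
    by_cases hti : τ i = i
    · rw [if_pos hti] at h0
      have h2 : (2 : ℝ) • e = 0 := by rw [two_smul]; exact h0
      rcases smul_eq_zero.mp h2 with h3 | h3
      · norm_num at h3
      · exact hne h3
    · rw [if_neg hti, add_zero] at h0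
      exact hne h0
  · intro i
    exact ⟨hexv n C Γ hD.toCC K hK2 hD.maxc w hw.pes i, hpes.cl i, hli.ne_zero i⟩
  · intro i hti e he hec
    have hL : Lf C τ w i = Fs C (w i) (w (τ i)) := if_neg hti
    have hne : i ≠ τ i := fun h => hti h.symm
    have hpb : PB C w i (τ i) (Fs C (w i) (w (τ i))) :=
      (htbx n C Γ K c τ hD w hw).1 i (τ i) hne
    have hfr : 3 ≤ Module.finrank ℝ (Fs C (w i) (w (τ i))) := by
      rw [hD.dim w hw i (τ i) hne]
      exact hD.toTau.pair i hti
    obtain ⟨-, -, h3, h4⟩ :=
      hexr n C Γ hD.toCC K hD.three hD.maxc w hw.pes i (τ i) hne hpb hfr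
    rw [hL] at he ⊢
    exact ⟨fun h => h4 e he h, fun h => h3 e he hec h⟩

end Pool.Agent.NTW.H19
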